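import Pool.Agent.FGT.Stmts

/-!
# FGT, row GAP: number of points of an infinite orbit in a window
-/

set_option autoImplicit false

universe u

namespace Pool.Agent.FGT.H8

open Pool.Agent.FGT

variable {L : Type u} [Group L]

/-- an infinite orbit of bounded generators has no long gap on the side on which it is unbounded -/
theorem no_gap (R : ℕ) (S : Finset L) (hS : Subgroup.closure (S : Set L) = ⊤)
    (α : L →* Equiv.Perm ℤ) (hα : ∀ s ∈ S, ∀ j : ℤ, |α s j - j| ≤ R) (ε : ℤ)
    (hε : ε = 1 ∨ ε = -1)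
    (hU : ∀ q : ℤ, ∃ o ∈ orb α (⊤ : Subgroup L) 0, q < ε * o) (q : ℤ) (hq : 0 ≤ q) :
    ∃ o ∈ orb α (⊤ : Subgroup L) 0, q < ε * o ∧ ε * o ≤ q + R := by
  by_contra hcon
  push Not at hcon
  have hO : ∀ (g : L) (j : ℤ), j ∈ orb α (⊤ : Subgroup L) 0 ↔
      α g j ∈ orb α (⊤ : Subgroup L) 0 := by
    intro g j
    constructor
    · rintro ⟨h, _, rfl⟩
      exact ⟨g * h, Subgroup.mem_top _, by rw [map_mul]; rfl⟩
    · rintro ⟨h, _, hh⟩
      refine ⟨g⁻¹ * h, Subgroup.mem_top _, ?_⟩
      rw [map_mul, Equiv.Perm.mul_apply, hh, map_inv]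
      exact Equiv.symm_apply_apply (α g) j
  -- the part of the orbit on the other side is invariant
  have key : ∀ g ∈ Subgroup.closure (S : Set L), ∀ j : ℤ,
      (j ∈ orb α (⊤ : Subgroup L) 0 ∧ ε * j ≤ q) ↔
        (α g j ∈ orb α (⊤ : Subgroup L) 0 ∧ ε * α g j ≤ q) := by
    intro g hg
    induction hg using Subgroup.closure_induction with
    | mem s hs =>
      intro j
      have h1 := abs_le.1 (hα s hs j)
      constructor
      · rintro ⟨h2, h3⟩
        refine ⟨(hO s j).1 h2, ?_⟩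
        by_contra h4
        have h5 := hcon (α s j) ((hO s j).1 h2) (not_le.1 h4)
        rcases hε with rfl | rfl <;> omega
      · rintro ⟨h2, h3⟩
        refine ⟨(hO s j).2 h2, ?_⟩
        by_contra h4
        have h5 := hcon j ((hO s j).2 h2) (not_le.1 h4)
        rcases hε with rfl | rfl <;> omega
    | one => intro j; rw [map_one]; rfl
    | mul g h _ _ ig ih =>
      intro j
      rw [map_mul, Equiv.Perm.mul_apply, ih j, ig (α h j)]
    | inv g _ ig =>
      intro j
      have h1 : α g (α g⁻¹ j) = j := by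
        rw [map_inv]
        exact Equiv.apply_symm_apply (α g) j
      have := ig (α g⁻¹ j)
      rw [h1] at this
      exact this.symm
  have h0 : (0 : ℤ) ∈ orb α (⊤ : Subgroup L) 0 := ⟨1, Subgroup.mem_top _, by rw [map_one]; rfl⟩
  obtain ⟨o, ⟨g, _, hg⟩, ho⟩ := hU q
  have h1 := ((key g (by rw [hS]; exact Subgroup.mem_top _) 0).1 ⟨h0, by rw [mul_zero]; exact hq⟩).2
  rw [hg] at h1
  omega

/-- GAP -/
theorem gap : GapStmt.{u} := by
  intro L _ _ R S hR hS α hα hI n
  set O := orb α (⊤ : Subgroup L) 0 with hOdef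
  have hinf : O.Infinite := hI
  -- unbounded on one side
  obtain ⟨ε, hε, hU⟩ : ∃ ε : ℤ, (ε = 1 ∨ ε = -1) ∧ ∀ q : ℤ, ∃ o ∈ O, q < ε * o := by
    by_contra hcon
    push Not at hcon
    obtain ⟨a, ha⟩ := hcon 1 (Or.inl rfl)
    obtain ⟨b, hb⟩ := hcon (-1) (Or.inr rfl)
    refine hinf ((Set.finite_Icc (-b) a).subset fun o ho => ?_)
    have h1 := ha o ho
    have h2 := hb o ho
    rw [Set.mem_Icc]
    omega
  have hg := no_gap R S hS α hα ε hε hU
  have hR0 : (0 : ℝ) < R := by exact_mod_cast hR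
  -- one point in each interval of length `R`
  have hpt : ∀ k : ℕ, ∃ o ∈ O, (k * R : ℤ) < ε * o ∧ ε * o ≤ k * R + R := fun k =>
    hg (k * R) (by positivity)
  choose f hf using hpt
  have hmem : ∀ k < n / R, f k ∈ O ∩ Set.Icc (-(n : ℤ)) n := by
    intro k hk
    obtain ⟨h1, h2, h3⟩ := hf k
    refine ⟨h1, ?_⟩
    have h4 : (k + 1) * R ≤ n := by
      have : k + 1 ≤ n / R := hk
      calc (k + 1) * R ≤ (n / R) * R := Nat.mul_le_mul_right _ this
        _ ≤ n := Nat.div_mul_le_self n R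
    have h5 : ((k : ℤ) + 1) * R ≤ n := by exact_mod_cast h4
    have h6 : (0 : ℤ) ≤ (k : ℤ) * R := by positivity
    rw [Set.mem_Icc]
    rcases hε with rfl | rfl
    · constructor <;> nlinarith
    · constructor <;> nlinarith
  have hinj : Set.InjOn f (Set.Iio (n / R)) := by
    intro a _ b _ hab
    obtain ⟨_, a2, a3⟩ := hf a
    obtain ⟨_, b2, b3⟩ := hf b
    rw [hab] at a2 a3
    have hRi : (0 : ℤ) < R := by exact_mod_cast hR
    have h1 : (a : ℤ) * R < (b + 1) * R := by nlinarith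
    have h2 : (b : ℤ) * R < (a + 1) * R := by nlinarith
    have h3 := lt_of_mul_lt_mul_right h1 hRi.le
    have h4 := lt_of_mul_lt_mul_right h2 hRi.le
    omega
  have hfin : (O ∩ Set.Icc (-(n : ℤ)) n).Finite := (Set.finite_Icc _ _).subset Set.inter_subset_right
  have hcard : n / R ≤ (O ∩ Set.Icc (-(n : ℤ)) n).ncard := by
    have h1 : (f '' Set.Iio (n / R)).ncard = n / R := by
      rw [hinj.ncard_image, ← Finset.coe_range, Set.ncard_coe_finset,
        Finset.card_range]
    rw [← h1]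
    refine Set.ncard_le_ncard ?_ hfin
    rintro _ ⟨k, hk, rfl⟩
    exact hmem k hk
  have h1 : (n : ℝ) / R - 1 ≤ ((n / R : ℕ) : ℝ) := by
    have h2 : n < (n / R + 1) * R := by
      have h3 := Nat.div_add_mod n R
      have h4 := Nat.mod_lt n (by omega : 0 < R)
      nlinarith
    have h3 : (n : ℝ) < (((n / R : ℕ) : ℝ) + 1) * R := by exact_mod_cast h2
    have h4 : (n : ℝ) / R < ((n / R : ℕ) : ℝ) + 1 := by
      rw [div_lt_iff₀ hR0]
      exact h3
    linarith
  refine h1.trans ?_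
  exact_mod_cast hcard

end Pool.Agent.FGT.H8
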