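import Pool.Agent.FGT.Stmts
import Pool.Agent.FGT.Cnt

/-!
# FGT, row TAV: a `T`-invariant measure which dominates an `L`-invariant one on the infinite orbits
-/

set_option autoImplicit false

open Filter Topology MeasureTheory

universe u v

namespace Pool.Agent.FGT.H8

open Pool.Agent.FGT Pool.Agent.H22.CIG Pool.Agent.H67.CIP

/-! ### a mean exists -/

theorem exists_mean : ∃ I : (ℤ → ℝ) → ℝ, IsMean I := by
  classical
  let U : Ultrafilter ℕ := hyperfilter ℕ
  have hU : (U : Filter ℕ) ≤ atTop := by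
    rw [← Nat.cofinite_eq_atTop]
    exact hyperfilter_le_cofinite
  have hlim : ∀ f : ℤ → ℝ, Bdd f → ∃ q : ℝ, Tendsto (fun M => av f M) U (𝓝 q) := by
    rintro f ⟨C, hC⟩
    have hc : IsCompact (Set.Icc (-C) C) := isCompact_Icc
    have h1 : ((U.map fun M => av f M : Ultrafilter ℝ) : Filter ℝ) ≤ 𝓟 (Set.Icc (-C) C) := by
      rw [le_principal_iff]
      show (fun M => av f M) ⁻¹' (Set.Icc (-C) C) ∈ U
      refine Filter.univ_mem' fun M => ?_
      have := abs_le.1 (av_abs_le hC M)
      exact ⟨this.1, this.2⟩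
    obtain ⟨q, _, hq⟩ := hc.ultrafilter_le_nhds _ h1
    exact ⟨q, hq⟩
  choose! I hI using hlim
  refine ⟨I, fun F hF ε hε N => ?_⟩
  have h1 : ∀ᶠ M in (U : Filter ℕ), ∀ f ∈ F, |av f M - I f| < ε := by
    rw [Filter.eventually_all_finset]
    intro f hf
    have := (Metric.tendsto_nhds.1 (hI f (hF f hf))) ε hε
    filter_upwards [this] with M hM
    rwa [Real.dist_eq] at hM
  have h2 : ∀ᶠ M in (U : Filter ℕ), N ≤ M := hU (eventually_ge_atTop N)
  obtain ⟨M, hM1, hM2⟩ := (h1.and h2).exists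
  exact ⟨M, hM2, hM1⟩

section

variable {X : Type v} [TopologicalSpace X] {T : X ≃ₜ X} {L : Type u} [Group L] [MulAction L X]

/-- `T ^ j x` is in the orbit of `x` -/
theorem mem_orb_iff (p : Piece T L) (x : X) (j : ℤ) :
    j ∈ orb (alp p x) (⊤ : Subgroup L) 0 ↔ ∃ g : L, g • x = (T ^ j) x := by
  constructor
  · rintro ⟨g, _, hg⟩
    refine ⟨g, ?_⟩
    rw [← alp_zero p x g, hg]
  · rintro ⟨g, hg⟩
    refine ⟨g, Subgroup.mem_top _, ?_⟩
    apply p.inj (x := x)
    rw [alp_zero p x g, hg]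

theorem orb_top_smul (p : Piece T L) (x : X) (g : L) :
    orb (alp p x) (⊤ : Subgroup L) (alp p x g 0) = orb (alp p x) (⊤ : Subgroup L) 0 := by
  ext j
  constructor
  · rintro ⟨h, _, hh⟩
    exact ⟨h * g, Subgroup.mem_top _, by rw [map_mul]; exact hh⟩
  · rintro ⟨h, _, hh⟩
    refine ⟨h * g⁻¹, Subgroup.mem_top _, ?_⟩
    rw [map_mul, Equiv.Perm.mul_apply, map_inv]
    have : (alp p x g)⁻¹ (alp p x g 0) = 0 := Equiv.symm_apply_apply _ _
    rw [this]
    exact hh

/-- the set of the infinite orbits is invariant -/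
theorem smul_mem_IX_top (p : Piece T L) (x : X) (g : L) :
    g • x ∈ IX p (⊤ : Subgroup L) ↔ x ∈ IX p (⊤ : Subgroup L) := by
  rw [smul_mem_IX_iff, orb_top_smul]
  rfl

end

/-- TAV -/
theorem tav (hExt : ExtStmt.{v}) (hM : MixStmt.{u, v}) (hP : MtpStmt.{u, v}) (hG : GapStmt.{u}) :
    TavStmt.{u, v} := by
  intro X _ _ M T L _ _ p ν _ hL hMeq hν
  classical
  have hcnt : Countable L := countable_of_fg hL
  -- clopen sets are measurable
  have hclo : ∀ s : Set X, IsClopen s → MeasurableSet s := by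
    intro s hs
    rw [hMeq]
    exact MeasurableSpace.measurableSet_generateFrom hs
  -- measurability of continuous maps
  have hmeas : ∀ f : X → X, Continuous f → Measurable f := by
    intro f hf
    have h1 : @Measurable X X M (MeasurableSpace.generateFrom {s : Set X | IsClopen s}) f :=
      measurable_generateFrom fun s hs => hclo _ (IsClopen.preimage hs hf)
    rw [← hMeq] at h1
    exact h1
  have hT : Measurable (T : X → X) := hmeas _ T.continuous
  have hT' : Measurable (T.symm : X → X) := hmeas _ T.symm.continuous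
  have hTj : ∀ j : ℤ, Measurable fun x : X => (T ^ j) x := fun j =>
    hmeas _ (T ^ j : X ≃ₜ X).continuous
  -- the infinite orbits
  set J := IX p (⊤ : Subgroup L) with hJ
  have htop : (⊤ : Subgroup L).FG := (Group.fg_def).1 hL
  obtain ⟨hW, hWu, _, _⟩ := hM X T L p ⊤ htop
  have hJm : MeasurableSet J := by
    have h1 : MeasurableSet Jᶜ := by
      rw [hWu]
      exact MeasurableSet.iUnion fun n => hclo _ (hW n)
    exact h1.of_compl
  -- generators
  obtain ⟨S, hS⟩ := htop
  have hbd : ∀ g : L, ∃ R : ℕ, ∀ x, |p.n g x| ≤ (R : ℤ) := fun g => cont_bound (p.n g) (p.cont g)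
  choose Rg hRg using hbd
  set R : ℕ := S.sup Rg + 1 with hR
  have hR1 : 1 ≤ R := by omega
  have hRS : ∀ s ∈ S, ∀ x, |p.n s x| ≤ (R : ℤ) := by
    intro s hs x
    refine (hRg s x).trans ?_
    have := Finset.le_sup (f := Rg) hs
    have h2 : Rg s ≤ R := by omega
    exact_mod_cast h2
  have hcount : ∀ y ∈ J, ∀ n : ℕ, (n : ℝ) / R - 1 ≤
      ((orb (alp p y) (⊤ : Subgroup L) 0 ∩ Set.Icc (-(n : ℤ)) n).ncard : ℝ) := by
    intro y hy n
    refine hG L hL R S hR1 hS (alp p y) (fun s hs j => ?_) hy n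
    rw [alp_apply, add_sub_cancel_right]
    exact hRS s hs _
  -- the sets
  have hBm : ∀ (C : Set X) (j : ℤ), MeasurableSet C →
      MeasurableSet {y : X | y ∈ C ∧ ∃ g : L, g • y = (T ^ j) y} := by
    intro C j hC
    have h1 : {y : X | y ∈ C ∧ ∃ g : L, g • y = (T ^ j) y} =
        C ∩ ⋃ g : L, {y : X | p.n g y = j} := by
      ext y
      simp only [Set.mem_inter_iff, Set.mem_iUnion]
      refine and_congr Iff.rfl (exists_congr fun g => ?_)
      constructor
      · intro h
        apply p.inj (x := y)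
        rw [← p.eq]
        exact h
      · intro h
        have h' : p.n g y = j := h
        rw [p.eq, h']
    rw [h1]
    refine hC.inter (MeasurableSet.iUnion fun g => hclo _ ?_)
    exact IsClopen.preimage (isClopen_discrete {j}) (p.cont g)
  -- the density of a set along `T`, restricted to the infinite orbits
  let F : Set X → ℤ → ℝ := fun A j => (ν (J ∩ (fun x => (T ^ j) x) ⁻¹' A)).toReal
  have hFbd : ∀ A, Bdd (F A) := by
    intro A
    refine ⟨(ν Set.univ).toReal, fun j => ?_⟩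
    rw [abs_of_nonneg ENNReal.toReal_nonneg]
    exact ENNReal.toReal_mono (measure_ne_top ν _) (measure_mono (Set.subset_univ _))
  -- the key inequality for a window
  have key : ∀ A : Set X, MeasurableSet A → ∀ n : ℕ,
      ((n : ℝ) / R - 1) * (ν (A ∩ J)).toReal ≤ ∑ j ∈ Finset.Icc (-(n : ℤ)) n, F A j := by
    intro A hA n
    have hC : MeasurableSet (A ∩ J) := hA.inter hJm
    -- one term
    have h1 : ∀ j : ℤ, ν {y : X | y ∈ A ∩ J ∧ ∃ g : L, g • y = (T ^ (-j)) y} ≤
        ν (J ∩ (fun x => (T ^ j) x) ⁻¹' A) := by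
      intro j
      rw [← hP X T L p ν hcnt hclo hν hT hT' j (A ∩ J) hC]
      refine measure_mono ?_
      rintro x ⟨⟨h2, h3⟩, g, hg⟩
      refine ⟨?_, h2⟩
      rw [← hg] at h3
      exact (smul_mem_IX_top p x g).1 h3
    -- the sum as an integral
    have h2 : ENNReal.ofReal ((n : ℝ) / R - 1) * ν (A ∩ J) ≤
        ∑ j ∈ Finset.Icc (-(n : ℤ)) n, ν {y : X | y ∈ A ∩ J ∧ ∃ g : L, g • y = (T ^ (-j)) y} := by
      have e1 : ∀ j : ℤ, ν {y : X | y ∈ A ∩ J ∧ ∃ g : L, g • y = (T ^ (-j)) y} =
          ∫⁻ y, {y : X | y ∈ A ∩ J ∧ ∃ g : L, g • y = (T ^ (-j)) y}.indicator 1 y ∂ν := fun j =>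
        (lintegral_indicator_one (hBm _ _ hC)).symm
      have e2 : ∑ j ∈ Finset.Icc (-(n : ℤ)) n,
            ν {y : X | y ∈ A ∩ J ∧ ∃ g : L, g • y = (T ^ (-j)) y} =
          ∫⁻ y, ∑ j ∈ Finset.Icc (-(n : ℤ)) n,
            {y : X | y ∈ A ∩ J ∧ ∃ g : L, g • y = (T ^ (-j)) y}.indicator 1 y ∂ν := by
        rw [lintegral_finsetSum]
        · exact Finset.sum_congr rfl fun j _ => e1 j
        · intro j _
          exact measurable_one.indicator (hBm _ _ hC)
      rw [e2]
      have e3 : ENNReal.ofReal ((n : ℝ) / R - 1) * ν (A ∩ J) =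
          ∫⁻ _ in A ∩ J, ENNReal.ofReal ((n : ℝ) / R - 1) ∂ν := by
        rw [setLIntegral_const]
      rw [e3, ← lintegral_indicator hC]
      refine lintegral_mono fun y => ?_
      by_cases hy : y ∈ A ∩ J
      · rw [Set.indicator_of_mem hy]
        have e4 : ∀ j : ℤ, {y : X | y ∈ A ∩ J ∧ ∃ g : L, g • y = (T ^ (-j)) y}.indicator
            (1 : X → ENNReal) y =
            if (-j) ∈ orb (alp p y) (⊤ : Subgroup L) 0 then 1 else 0 := by
          intro j
          by_cases hj : (-j) ∈ orb (alp p y) (⊤ : Subgroup L) 0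
          · rw [if_pos hj, Set.indicator_of_mem]
            · rfl
            · exact ⟨hy, (mem_orb_iff p y (-j)).1 hj⟩
          · rw [if_neg hj, Set.indicator_of_notMem]
            rintro ⟨_, h⟩
            exact hj ((mem_orb_iff p y (-j)).2 h)
        rw [Finset.sum_congr rfl fun j _ => e4 j, Finset.sum_boole]
        have e5 : ((Finset.Icc (-(n : ℤ)) n).filter
            fun j => (-j) ∈ orb (alp p y) (⊤ : Subgroup L) 0).card =
            (orb (alp p y) (⊤ : Subgroup L) 0 ∩ Set.Icc (-(n : ℤ)) n).ncard := by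
          have e6 : orb (alp p y) (⊤ : Subgroup L) 0 ∩ Set.Icc (-(n : ℤ)) n =
              (((Finset.Icc (-(n : ℤ)) n).filter
                fun j => (-j) ∈ orb (alp p y) (⊤ : Subgroup L) 0).image (fun j => -j) :
                Finset ℤ) := by
            ext j
            simp only [Set.mem_inter_iff, Set.mem_Icc, Finset.coe_image, Finset.coe_filter,
              Finset.mem_Icc, Set.mem_image, Set.mem_ofPred_eq]
            constructor
            · rintro ⟨h1, h2, h3⟩
              refine ⟨-j, ⟨⟨by omega, by omega⟩, ?_⟩, by omega⟩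
              rw [neg_neg]
              exact h1
            · rintro ⟨i, ⟨⟨h1, h2⟩, h3⟩, rfl⟩
              exact ⟨h3, by omega, by omega⟩
          rw [e6, Set.ncard_coe_finset, Finset.card_image_of_injective _ neg_injective]
        rw [e5]
        have e7 := hcount y hy.2 n
        rw [← ENNReal.ofReal_natCast]
        exact ENNReal.ofReal_le_ofReal e7
      · rw [Set.indicator_of_notMem hy]
        exact zero_le
    -- to real numbers
    by_cases hn : 0 ≤ (n : ℝ) / R - 1
    · have h3 : ENNReal.ofReal ((n : ℝ) / R - 1) * ν (A ∩ J) ≤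
          ∑ j ∈ Finset.Icc (-(n : ℤ)) n, ν (J ∩ (fun x => (T ^ j) x) ⁻¹' A) :=
        h2.trans (Finset.sum_le_sum fun j _ => h1 j)
      have hne : ∑ j ∈ Finset.Icc (-(n : ℤ)) n, ν (J ∩ (fun x => (T ^ j) x) ⁻¹' A) ≠ ⊤ :=
        ENNReal.sum_ne_top.2 fun j _ => measure_ne_top ν _
      have h4 := ENNReal.toReal_mono hne h3
      rw [ENNReal.toReal_mul, ENNReal.toReal_ofReal hn,
        ENNReal.toReal_sum fun j _ => measure_ne_top ν _] at h4
      exact h4
    · have h3 : ((n : ℝ) / R - 1) * (ν (A ∩ J)).toReal ≤ 0 :=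
        mul_nonpos_of_nonpos_of_nonneg (le_of_lt (not_le.1 hn)) ENNReal.toReal_nonneg
      exact h3.trans (Finset.sum_nonneg fun j _ => ENNReal.toReal_nonneg)
  -- the mean
  obtain ⟨I, hI⟩ := exists_mean
  have hIadd : ∀ A B : Set X, IsClopen A → IsClopen B → Disjoint A B →
      I (F (A ∪ B)) = I (F A) + I (F B) := by
    intro A B hA hB hAB
    rw [← hI.add (hFbd A) (hFbd B)]
    congr 1
    funext j
    show (ν (J ∩ (fun x => (T ^ j) x) ⁻¹' (A ∪ B))).toReal =
      (ν (J ∩ (fun x => (T ^ j) x) ⁻¹' A)).toReal + (ν (J ∩ (fun x => (T ^ j) x) ⁻¹' B)).toReal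
    rw [← ENNReal.toReal_add (measure_ne_top ν _) (measure_ne_top ν _), Set.preimage_union,
      Set.inter_union_distrib_left, measure_union]
    · exact (Disjoint.preimage _ hAB).mono Set.inter_subset_right Set.inter_subset_right
    · exact hJm.inter (hTj j (hclo B hB))
  have hE : ∀ m : Set X → ℝ, (∀ A, IsClopen A → 0 ≤ m A) →
      (∀ A B, IsClopen A → IsClopen B → Disjoint A B → m (A ∪ B) = m A + m B) →
      ∃ μ : Measure X, ∀ A : Set X, IsClopen A → μ A = ENNReal.ofReal (m A) := by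
    rw [hMeq]
    exact hExt X
  obtain ⟨μ, hμ⟩ := hE (fun A => I (F A))
    (fun A _ => hI.nonneg (hFbd A) fun j => ENNReal.toReal_nonneg) hIadd
  have hfin : IsFiniteMeasure μ := ⟨by
    rw [hμ Set.univ isClopen_univ]
    exact ENNReal.ofReal_lt_top⟩
  -- invariance of the mean
  have hinv : ∀ A : Set X, I (F ((T : X → X) ⁻¹' A)) = I (F A) := by
    intro A
    have h1 : F ((T : X → X) ⁻¹' A) = F A ∘ (Equiv.addRight (1 : ℤ)) := by
      funext j
      show (ν (J ∩ (fun x => (T ^ j) x) ⁻¹' ((T : X → X) ⁻¹' A))).toReal =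
        (ν (J ∩ (fun x => (T ^ (j + 1)) x) ⁻¹' A)).toReal
      congr 3
      ext x
      show T ((T ^ j) x) ∈ A ↔ (T ^ (j + 1)) x ∈ A
      rw [add_comm j 1, zpow_add_apply, zpow_one]
    rw [h1]
    refine hI.perm (Equiv.addRight (1 : ℤ)) 1 (fun j => ?_) (hFbd A)
    show |j + 1 - j| ≤ ((1 : ℕ) : ℤ)
    rw [add_sub_cancel_left]
    rfl
  -- the lower bound
  have hR0 : (0 : ℝ) < R := by exact_mod_cast hR1
  have hlow : ∀ A : Set X, MeasurableSet A → (ν (A ∩ J)).toReal ≤ 4 * R * I (F A) := by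
    intro A hA
    by_contra hcon
    push Not at hcon
    set a := (ν (A ∩ J)).toReal with ha
    have ha0 : 0 ≤ a := ENNReal.toReal_nonneg
    set ε := (a / (4 * R) - I (F A)) / 2 with hε
    have h4R : (0 : ℝ) < 4 * R := by positivity
    have h1 : I (F A) < a / (4 * R) := by
      rw [lt_div_iff₀ h4R]
      linarith
    have hε0 : 0 < ε := by rw [hε]; linarith
    obtain ⟨n, hn, hn2⟩ := hI {F A} (fun f hf => by
      rw [Finset.mem_singleton] at hf
      rw [hf]
      exact hFbd A) ε hε0 (2 * R + 1)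
    have h2 := abs_lt.1 (hn2 (F A) (Finset.mem_singleton_self _))
    have h3 := key A hA n
    have hn' : (2 * R + 1 : ℝ) ≤ n := by exact_mod_cast hn
    have h4 : a / (4 * R) ≤ av (F A) n := by
      unfold av
      rw [div_le_div_iff₀ h4R (win_pos n)]
      have h5 : 2 * (n : ℝ) + 1 ≤ ((n : ℝ) / R - 1) * (4 * R) := by
        have : ((n : ℝ) / R - 1) * (4 * R) = 4 * n - 4 * R := by
          field_simp
        rw [this]
        linarith
      calc a * (2 * (n : ℝ) + 1) ≤ a * (((n : ℝ) / R - 1) * (4 * R)) :=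
            mul_le_mul_of_nonneg_left h5 ha0
        _ = (((n : ℝ) / R - 1) * a) * (4 * R) := by ring
        _ ≤ _ := mul_le_mul_of_nonneg_right h3 h4R.le
    linarith [h2.2]
  refine ⟨μ, ENNReal.ofReal (4 * R), hfin, ENNReal.ofReal_ne_top, ⟨hT, ?_⟩, fun A hA => ?_⟩
  · have hfin2 : IsFiniteMeasure (Measure.map (T : X → X) μ) := by infer_instance
    refine ext_of_generate_finite {s : Set X | IsClopen s} hMeq ?_ ?_ ?_
    · intro s hs t ht _
      exact IsClopen.inter hs ht
    · intro s hs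
      rw [Measure.map_apply hT (hclo s hs), hμ s hs,
        hμ _ (IsClopen.preimage hs T.continuous)]
      show ENNReal.ofReal (I (F ((T : X → X) ⁻¹' s))) = _
      rw [hinv]
    · rw [Measure.map_apply hT MeasurableSet.univ, Set.preimage_univ]
  · rw [hμ A hA, ← ENNReal.ofReal_mul (by positivity),
      ← ENNReal.ofReal_toReal (measure_ne_top ν (A ∩ J))]
    exact ENNReal.ofReal_le_ofReal (hlow A (hclo A hA))

end Pool.Agent.FGT.H8
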